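import Mathlib

set_option autoImplicit false

/-!
# Fréchet algebras without non-zero injective Fréchet modules

Definitions of Fréchet spaces, Fréchet algebras (associative, not necessarily unital), Fréchet modules and
(relatively) injective Fréchet modules, and the proof that the algebra of formal power series `ℂ⟦z⟧`
(for unital modules) and its maximal ideal `zℂ⟦z⟧` (for all modules) have no non-zero injective module.
-/

namespace Pool.Agent.Y727.FI

open Filter Topology
open scoped PowerSeries.WithPiTopology Uniformity

universe u v

/-- A complex Fréchet space: complete, Hausdorff, with a countably generated uniformity (so metrizable),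
and locally convex (the topology is given by the continuous seminorms). -/
class IsFrechet (E : Type u) [AddCommGroup E] [Module ℂ E] [UniformSpace E] : Prop where
  isUniformAddGroup : IsUniformAddGroup E
  locallyConvex : PolynormableSpace ℂ E
  t2 : T2Space E
  complete : CompleteSpace E
  countablyGenerated : (𝓤 E).IsCountablyGenerated

attribute [instance] IsFrechet.isUniformAddGroup IsFrechet.locallyConvex IsFrechet.t2
  IsFrechet.complete IsFrechet.countablyGenerated

/-- A Fréchet algebra: a Fréchet space with an associative bilinear jointly continuous product
(no unit is required). -/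
structure FrechetAlgebra where
  carrier : Type u
  [addCommGroup : AddCommGroup carrier]
  [module : Module ℂ carrier]
  [uniformSpace : UniformSpace carrier]
  [isFrechet : IsFrechet carrier]
  mul : carrier →ₗ[ℂ] carrier →ₗ[ℂ] carrier
  mul_assoc : ∀ a b c, mul (mul a b) c = mul a (mul b c)
  continuous_mul : Continuous fun p : carrier × carrier => mul p.1 p.2

attribute [instance] FrechetAlgebra.addCommGroup FrechetAlgebra.module
  FrechetAlgebra.uniformSpace FrechetAlgebra.isFrechet

/-- A (left) Fréchet module over a Fréchet algebra: a Fréchet space with a bilinear associative jointly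
continuous action. -/
structure FrechetModule (A : FrechetAlgebra.{v}) where
  carrier : Type u
  [addCommGroup : AddCommGroup carrier]
  [module : Module ℂ carrier]
  [uniformSpace : UniformSpace carrier]
  [isFrechet : IsFrechet carrier]
  act : A.carrier →ₗ[ℂ] carrier →ₗ[ℂ] carrier
  act_mul : ∀ a b x, act (A.mul a b) x = act a (act b x)
  continuous_act : Continuous fun p : A.carrier × carrier => act p.1 p.2

attribute [instance] FrechetModule.addCommGroup FrechetModule.module
  FrechetModule.uniformSpace FrechetModule.isFrechet

variable {A : FrechetAlgebra.{v}}

/-- `e` is a (two-sided) unit of the algebra. -/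
def FrechetAlgebra.IsUnit (A : FrechetAlgebra.{v}) (e : A.carrier) : Prop :=
  ∀ a, A.mul e a = a ∧ A.mul a e = a

/-- The element `e` acts as the identity. -/
def FrechetModule.IsUnital (X : FrechetModule.{u, v} A) (e : A.carrier) : Prop :=
  ∀ x, X.act e x = x

/-- A continuous linear map is a morphism of modules. -/
def IsMorphism {X Y : FrechetModule.{u, v} A} (f : X.carrier →L[ℂ] Y.carrier) : Prop :=
  ∀ a x, f (X.act a x) = Y.act a (f x)

/-- (Relative) injectivity with respect to a class `P` of test modules: every morphism `φ : X → Y` into a module
`Y` of the class which has a continuous linear left inverse has a left inverse that is a morphism. -/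
def FrechetModule.IsInjectiveFor (P : FrechetModule.{u, v} A → Prop) (X : FrechetModule.{u, v} A) : Prop :=
  ∀ (Y : FrechetModule.{u, v} A), P Y → ∀ φ : X.carrier →L[ℂ] Y.carrier, IsMorphism φ →
    (∃ ψ : Y.carrier →L[ℂ] X.carrier, ∀ x, ψ (φ x) = x) →
    ∃ ψ : Y.carrier →L[ℂ] X.carrier, IsMorphism ψ ∧ ∀ x, ψ (φ x) = x

/-- Injective Fréchet modules. -/
def FrechetModule.IsInjective (X : FrechetModule.{u, v} A) : Prop :=
  X.IsInjectiveFor (fun _ => True)

instance isFrechet_prod (E : Type u) (F : Type v) [AddCommGroup E] [Module ℂ E] [UniformSpace E]
    [IsFrechet E] [AddCommGroup F] [Module ℂ F] [UniformSpace F] [IsFrechet F] :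
    IsFrechet (E × F) where
  isUniformAddGroup := inferInstance
  locallyConvex := inferInstance
  t2 := inferInstance
  complete := inferInstance
  countablyGenerated := inferInstance

instance isFrechet_complex : IsFrechet ℂ where
  isUniformAddGroup := inferInstance
  locallyConvex := inferInstance
  t2 := inferInstance
  complete := inferInstance
  countablyGenerated := inferInstance

instance isFrechet_powerSeries : IsFrechet (PowerSeries ℂ) where
  isUniformAddGroup := inferInstance
  locallyConvex := (inferInstance : PolynormableSpace ℂ ((Unit →₀ ℕ) → ℂ))
  t2 := inferInstance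
  complete := inferInstance
  countablyGenerated := (inferInstance : (𝓤 ((Unit →₀ ℕ) → ℂ)).IsCountablyGenerated)

end Pool.Agent.Y727.FI
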