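import Pool.Agent.Y727.FI.Main

set_option autoImplicit false

namespace Pool.Agent.Y727.FI

open scoped PowerSeries.WithPiTopology

universe u v

variable {A : FrechetAlgebra.{v}}

/-- `f` is continuous and `ℂ`-linear. -/
def IsContLinear {X Y : FrechetModule.{u, v} A} (f : X.carrier → Y.carrier) : Prop :=
  Continuous f ∧ IsLinearMap ℂ f

/-- `f` is a morphism of Fréchet modules: continuous, `ℂ`-linear and compatible with the actions. -/
def IsModuleHom {X Y : FrechetModule.{u, v} A} (f : X.carrier → Y.carrier) : Prop :=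
  IsContLinear f ∧ ∀ a x, f (X.act a x) = Y.act a (f x)

/-- A sequence `0 → X → J₀ → J₁ → J₂ → ⋯` of Fréchet modules and maps. -/
structure ModuleSeq (X : FrechetModule.{u, v} A) where
  /-- the modules `J₀, J₁, …` -/
  J : ℕ → FrechetModule.{u, v} A
  /-- the map `X → J₀` -/
  aug : X.carrier → (J 0).carrier
  /-- the maps `Jₙ → Jₙ₊₁` -/
  d : ∀ n, (J n).carrier → (J (n + 1)).carrier

variable {X : FrechetModule.{u, v} A}

/-- All maps are morphisms of modules. -/
def ModuleSeq.AllModuleHom (R : ModuleSeq X) : Prop :=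
  IsModuleHom R.aug ∧ ∀ n, IsModuleHom (R.d n)

/-- Consecutive maps compose to zero. -/
def ModuleSeq.CompZero (R : ModuleSeq X) : Prop :=
  (∀ x, R.d 0 (R.aug x) = 0) ∧ ∀ n x, R.d (n + 1) (R.d n x) = 0

/-- The identities of a contracting homotopy `k : J₀ → X`, `h n : Jₙ₊₁ → Jₙ`. -/
def ModuleSeq.IsHomotopy (R : ModuleSeq X) (k : (R.J 0).carrier → X.carrier)
    (h : ∀ n, (R.J (n + 1)).carrier → (R.J n).carrier) : Prop :=
  (∀ x, k (R.aug x) = x) ∧ (∀ y, R.aug (k y) + h 0 (R.d 0 y) = y) ∧
    ∀ n y, R.d n (h n y) + h (n + 1) (R.d (n + 1) y) = y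

/-- There is a contracting homotopy made of continuous linear maps. -/
def ModuleSeq.Splits (R : ModuleSeq X) : Prop :=
  ∃ k h, IsContLinear k ∧ (∀ n, IsContLinear (h n)) ∧ R.IsHomotopy k h

/-- `X` has an injective coresolution in the category of the modules with property `P`: an admissible complex
`0 → X → J₀ → J₁ → ⋯` in which every `Jₙ` has property `P` and is injective with respect to these modules. -/
def HasInjectiveCoresolution (P : FrechetModule.{u, v} A → Prop) (X : FrechetModule.{u, v} A) :
    Prop :=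
  ∃ R : ModuleSeq X, R.AllModuleHom ∧ R.CompZero ∧ R.Splits ∧
    ∀ n, P (R.J n) ∧ (R.J n).IsInjectiveFor P

/-- The trivial module `ℂ` with zero action. -/
noncomputable def zeroActionModule (A : FrechetAlgebra.{v}) : FrechetModule.{0, v} A where
  carrier := ℂ
  act := 0
  act_mul := by intro a b x; simp
  continuous_act := by simpa using (continuous_const : Continuous fun _ : A.carrier × ℂ => (0 : ℂ))

/-- The action of `ℂ⟦z⟧` on `ℂ = ℂ⟦z⟧ / z ℂ⟦z⟧`. -/
noncomputable def residueAct : PowerSeries ℂ →ₗ[ℂ] ℂ →ₗ[ℂ] ℂ :=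
  LinearMap.mk₂ ℂ (fun (f : PowerSeries ℂ) (c : ℂ) => PowerSeries.constantCoeff f * c)
    (by intro f g c; simp [add_mul]) (by intro a f c; simp [mul_assoc])
    (by intro f c c'; simp [mul_add]) (by intro a f c; simp only [smul_eq_mul]; ring)

/-- The unital module `ℂ = ℂ⟦z⟧ / z ℂ⟦z⟧`. -/
noncomputable def residueModule : FrechetModule.{0, 0} formalPowerSeries where
  carrier := ℂ
  act := residueAct
  act_mul := by
    intro (f : PowerSeries ℂ) (g : PowerSeries ℂ) (c : ℂ)
    show PowerSeries.constantCoeff (f * g) * c =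
      PowerSeries.constantCoeff f * (PowerSeries.constantCoeff g * c)
    rw [map_mul, mul_assoc]
  continuous_act := by
    have h3 : Continuous fun p : PowerSeries ℂ × ℂ => PowerSeries.constantCoeff p.1 :=
      (PowerSeries.WithPiTopology.continuous_constantCoeff ℂ).comp continuous_fst
    exact h3.mul continuous_snd

end Pool.Agent.Y727.FI
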