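import Pool.Agent.Y727.FI.PS

set_option autoImplicit false

namespace Pool.Agent.Y727.FI

open Filter Topology
open scoped PowerSeries.WithPiTopology Uniformity

universe u v

/-! ### Unital modules over `ℂ⟦z⟧` -/

section Unital

variable (X : FrechetModule.{u, 0} formalPowerSeries)

/-- The action of `ℂ⟦z⟧`. -/
noncomputable def actU : PowerSeries ℂ →ₗ[ℂ] X.carrier →ₗ[ℂ] X.carrier := X.act

theorem actU_mul (f g : PowerSeries ℂ) (x : X.carrier) :
    actU X (f * g) x = actU X f (actU X g x) := X.act_mul f g x

theorem actU_cont : Continuous fun p : PowerSeries ℂ × X.carrier => actU X p.1 p.2 :=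
  X.continuous_act

/-- The one-dimensional extension in which the new vector `y` satisfies `z y = x₀`. -/
noncomputable def extActU (x₀ : X.carrier) :
    PowerSeries ℂ →ₗ[ℂ] (X.carrier × ℂ) →ₗ[ℂ] (X.carrier × ℂ) :=
  LinearMap.mk₂ ℂ (fun f y =>
      (actU X f y.1 + y.2 • actU X (D f) x₀, PowerSeries.constantCoeff f * y.2))
    (by
      intro f g y
      ext
      · simp only [map_add, LinearMap.add_apply, smul_add, Prod.fst_add]
        abel
      · simp [add_mul])
    (by
      intro c f y
      ext
      · simp only [map_smul, LinearMap.smul_apply, Prod.smul_fst, smul_add]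
        rw [smul_comm y.2 c]
      · simp [mul_assoc])
    (by
      intro f y y'
      ext
      · simp only [map_add, add_smul, Prod.fst_add, Prod.snd_add]
        abel
      · simp [mul_add])
    (by
      intro c f y
      ext
      · simp only [map_smul, Prod.smul_fst, Prod.smul_snd, smul_add, smul_eq_mul, mul_smul]
      · simp only [Prod.smul_snd, smul_eq_mul]
        ring)

theorem extActU_apply (x₀ : X.carrier) (f : PowerSeries ℂ) (y : X.carrier × ℂ) :
    extActU X x₀ f y =
      (actU X f y.1 + y.2 • actU X (D f) x₀, PowerSeries.constantCoeff f * y.2) := rfl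

/-- The extension as a Fréchet module. -/
noncomputable def extU (x₀ : X.carrier) : FrechetModule.{u, 0} formalPowerSeries where
  carrier := X.carrier × ℂ
  act := extActU X x₀
  act_mul := by
    intro (f : PowerSeries ℂ) (g : PowerSeries ℂ) y
    show extActU X x₀ (f * g : PowerSeries ℂ) y = extActU X x₀ f (extActU X x₀ g y)
    have hcsm : ContinuousSMul ℂ X.carrier :=
      (PolynormableSpace.withSeminorms ℂ X.carrier).continuousSMul
    rw [extActU_apply, extActU_apply, extActU_apply, D_mul]
    ext
    · simp only [map_add, LinearMap.add_apply, map_smul, LinearMap.smul_apply, actU_mul, smul_add,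
        smul_smul]
      rw [mul_comm y.2, add_assoc]
    · simp only [map_mul]
      ring
  continuous_act := by
    have hcsm : ContinuousSMul ℂ X.carrier :=
      (PolynormableSpace.withSeminorms ℂ X.carrier).continuousSMul
    have h1 : Continuous fun p : PowerSeries ℂ × (X.carrier × ℂ) => actU X p.1 p.2.1 :=
      (actU_cont X).comp (continuous_fst.prodMk (continuous_fst.comp continuous_snd))
    have h2 : Continuous fun p : PowerSeries ℂ × (X.carrier × ℂ) => actU X (D p.1) x₀ :=
      (actU_cont X).comp ((continuous_D.comp continuous_fst).prodMk continuous_const)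
    have h3 : Continuous fun p : PowerSeries ℂ × (X.carrier × ℂ) =>
        PowerSeries.constantCoeff p.1 :=
      (PowerSeries.WithPiTopology.continuous_constantCoeff ℂ).comp continuous_fst
    have h4 : Continuous fun p : PowerSeries ℂ × (X.carrier × ℂ) => p.2.2 :=
      continuous_snd.comp continuous_snd
    exact (h1.add (h4.smul h2)).prodMk (h3.mul h4)

theorem divisibleU (hu : X.IsUnital (1 : PowerSeries ℂ))
    (hX : X.IsInjectiveFor fun Y => Y.IsUnital (1 : PowerSeries ℂ)) (x₀ : X.carrier) :
    ∃ x₁, actU X PowerSeries.X x₁ = x₀ := by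
  have hu' : ∀ x, actU X 1 x = x := hu
  have hYu : (extU X x₀).IsUnital (1 : PowerSeries ℂ) := by
    intro y
    show extActU X x₀ 1 y = y
    rw [extActU_apply]
    ext
    · simp [hu', D_one]
    · simp
  let φ : X.carrier →L[ℂ] (X.carrier × ℂ) := ContinuousLinearMap.inl ℂ X.carrier ℂ
  let ψ : (X.carrier × ℂ) →L[ℂ] X.carrier := ContinuousLinearMap.fst ℂ X.carrier ℂ
  obtain ⟨r, hr, hr'⟩ := hX (extU X x₀) hYu φ (by
      intro f x
      show ((actU X f x, (0 : ℂ)) : X.carrier × ℂ) = extActU X x₀ f (x, 0)
      rw [extActU_apply]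
      simp) ⟨ψ, fun x => rfl⟩
  refine ⟨r ((0, 1) : X.carrier × ℂ), ?_⟩
  have h1 : r (extActU X x₀ PowerSeries.X (0, 1)) = actU X PowerSeries.X (r ((0, 1) : X.carrier × ℂ)) :=
    hr PowerSeries.X ((0, 1) : X.carrier × ℂ)
  rw [← h1, extActU_apply]
  simp only [map_zero, one_smul, zero_add, D_X, hu', PowerSeries.constantCoeff_X, zero_mul]
  exact hr' x₀

theorem trivialU (hu : X.IsUnital (1 : PowerSeries ℂ))
    (hX : X.IsInjectiveFor fun Y => Y.IsUnital (1 : PowerSeries ℂ)) (x₀ : X.carrier) : x₀ = 0 := by
  have hu' : ∀ x, actU X 1 x = x := hu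
  have hdiv : ∀ (N : ℕ) (x : X.carrier), ∃ y, actU X (PowerSeries.X ^ N) y = x := by
    intro N
    induction N with
    | zero => intro x; exact ⟨x, by rw [pow_zero, hu']⟩
    | succ N ih =>
      intro x
      obtain ⟨y, hy⟩ := ih x
      obtain ⟨w, hw⟩ := divisibleU X hu hX y
      exact ⟨w, by rw [pow_succ, actU_mul, hw, hy]⟩
  by_contra hne
  obtain ⟨p, hp⟩ := (PolynormableSpace.withSeminorms ℂ X.carrier).separating_of_T1 x₀ hne
  obtain ⟨N, hN⟩ := exists_kill (actU X) (actU_cont X) p.1 p.2
  obtain ⟨y, hy⟩ := hdiv N x₀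
  apply hp
  rw [← hy]
  exact hN y

end Unital

/-! ### All modules over `zℂ⟦z⟧` -/

section NonUnital

variable (X : FrechetModule.{u, 0} formalMaximalIdeal)

/-- The action of `zℂ⟦z⟧` (the element `f` stands for `z f`). -/
noncomputable def actN : PowerSeries ℂ →ₗ[ℂ] X.carrier →ₗ[ℂ] X.carrier := X.act

theorem actN_mul (f g : PowerSeries ℂ) (x : X.carrier) :
    actN X (PowerSeries.X * f * g) x = actN X f (actN X g x) := X.act_mul f g x

theorem actN_cont : Continuous fun p : PowerSeries ℂ × X.carrier => actN X p.1 p.2 :=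
  X.continuous_act

/-- The one-dimensional extension in which the new vector `y` satisfies `z y = x₀`. -/
noncomputable def extActN (x₀ : X.carrier) :
    PowerSeries ℂ →ₗ[ℂ] (X.carrier × ℂ) →ₗ[ℂ] (X.carrier × ℂ) :=
  LinearMap.mk₂ ℂ (fun f y =>
      (actN X f y.1 + y.2 • (PowerSeries.constantCoeff f • x₀ + actN X (D f) x₀), 0))
    (by
      intro f g y
      ext
      · simp only [map_add, LinearMap.add_apply, smul_add, Prod.fst_add, add_smul]
        abel
      · simp)
    (by
      intro c f y
      ext
      · simp only [map_smul, LinearMap.smul_apply, Prod.smul_fst, smul_add,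
          PowerSeries.constantCoeff_smul, smul_smul]
        rw [mul_comm c y.2]
        congr 2
        congr 1
        ring
      · simp)
    (by
      intro f y y'
      ext
      · simp only [map_add, add_smul, Prod.fst_add, Prod.snd_add]
        abel
      · simp)
    (by
      intro c f y
      ext
      · simp only [map_smul, Prod.smul_fst, Prod.smul_snd, smul_add, smul_eq_mul, mul_smul]
      · simp)

theorem extActN_apply (x₀ : X.carrier) (f : PowerSeries ℂ) (y : X.carrier × ℂ) :
    extActN X x₀ f y =
      (actN X f y.1 + y.2 • (PowerSeries.constantCoeff f • x₀ + actN X (D f) x₀), 0) := rfl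

/-- The extension as a Fréchet module. -/
noncomputable def extN (x₀ : X.carrier) : FrechetModule.{u, 0} formalMaximalIdeal where
  carrier := X.carrier × ℂ
  act := extActN X x₀
  act_mul := by
    intro (f : PowerSeries ℂ) (g : PowerSeries ℂ) y
    show extActN X x₀ (PowerSeries.X * f * g : PowerSeries ℂ) y =
      extActN X x₀ f (extActN X x₀ g y)
    rw [extActN_apply, extActN_apply, extActN_apply, mul_assoc, D_X_mul, ← mul_assoc, actN_mul]
    ext
    · have hg : actN X (f * g) x₀ =
          PowerSeries.constantCoeff g • actN X f x₀ + actN X f (actN X (D g) x₀) := by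
        have h1 : f * g = PowerSeries.constantCoeff g • f + PowerSeries.X * f * D g := by
          conv_lhs => rw [eq_X_mul_D g]
          rw [PowerSeries.smul_eq_C_mul]
          ring
        rw [h1, map_add, LinearMap.add_apply, map_smul, LinearMap.smul_apply, actN_mul]
      simp only [map_add, map_smul, hg]
      simp
    · simp
  continuous_act := by
    have hcsm : ContinuousSMul ℂ X.carrier :=
      (PolynormableSpace.withSeminorms ℂ X.carrier).continuousSMul
    have h1 : Continuous fun p : PowerSeries ℂ × (X.carrier × ℂ) => actN X p.1 p.2.1 :=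
      (actN_cont X).comp (continuous_fst.prodMk (continuous_fst.comp continuous_snd))
    have h2 : Continuous fun p : PowerSeries ℂ × (X.carrier × ℂ) => actN X (D p.1) x₀ :=
      (actN_cont X).comp ((continuous_D.comp continuous_fst).prodMk continuous_const)
    have h3 : Continuous fun p : PowerSeries ℂ × (X.carrier × ℂ) =>
        PowerSeries.constantCoeff p.1 :=
      (PowerSeries.WithPiTopology.continuous_constantCoeff ℂ).comp continuous_fst
    have h4 : Continuous fun p : PowerSeries ℂ × (X.carrier × ℂ) => p.2.2 :=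
      continuous_snd.comp continuous_snd
    exact (h1.add (h4.smul ((h3.smul continuous_const).add h2))).prodMk continuous_const

theorem divisibleN (hX : X.IsInjective) (x₀ : X.carrier) : ∃ x₁, actN X 1 x₁ = x₀ := by
  let φ : X.carrier →L[ℂ] (X.carrier × ℂ) := ContinuousLinearMap.inl ℂ X.carrier ℂ
  let ψ : (X.carrier × ℂ) →L[ℂ] X.carrier := ContinuousLinearMap.fst ℂ X.carrier ℂ
  obtain ⟨r, hr, hr'⟩ := hX (extN X x₀) trivial φ (by
      intro f x
      show ((actN X f x, (0 : ℂ)) : X.carrier × ℂ) = extActN X x₀ f (x, 0)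
      rw [extActN_apply]
      simp) ⟨ψ, fun x => rfl⟩
  refine ⟨r ((0, 1) : X.carrier × ℂ), ?_⟩
  have h1 : r (extActN X x₀ 1 (0, 1)) = actN X 1 (r ((0, 1) : X.carrier × ℂ)) :=
    hr (1 : PowerSeries ℂ) ((0, 1) : X.carrier × ℂ)
  rw [← h1, extActN_apply]
  simp only [map_zero, map_one, one_smul, zero_add, D_one, LinearMap.zero_apply, add_zero]
  exact hr' x₀

theorem trivialN (hX : X.IsInjective) (x₀ : X.carrier) : x₀ = 0 := by
  have hdiv : ∀ (N : ℕ) (x : X.carrier), ∃ y, actN X (PowerSeries.X ^ N) y = x := by
    intro N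
    induction N with
    | zero => intro x; rw [pow_zero]; exact divisibleN X hX x
    | succ N ih =>
      intro x
      obtain ⟨y, hy⟩ := ih x
      obtain ⟨w, hw⟩ := divisibleN X hX y
      refine ⟨w, ?_⟩
      have := actN_mul X (PowerSeries.X ^ N) 1 w
      rw [mul_one, ← pow_succ', hw, hy] at this
      exact this
  by_contra hne
  obtain ⟨p, hp⟩ := (PolynormableSpace.withSeminorms ℂ X.carrier).separating_of_T1 x₀ hne
  obtain ⟨N, hN⟩ := exists_kill (actN X) (actN_cont X) p.1 p.2
  obtain ⟨y, hy⟩ := hdiv N x₀
  apply hp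
  rw [← hy]
  exact hN y

end NonUnital

end Pool.Agent.Y727.FI
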