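import Pool.Agent.Y727.FI.Core

set_option autoImplicit false

namespace Pool.Agent.Y727.FI

open Filter Topology
open scoped PowerSeries.WithPiTopology Uniformity

universe u v

/-- A finite sequence of coefficients does not matter near zero: in a neighbourhood of `0` in `ℂ⟦z⟧` there is a
whole line `ℂ z^N`. -/
theorem exists_line_mem {U : Set (PowerSeries ℂ)} (hU : U ∈ 𝓝 (0 : PowerSeries ℂ)) :
    ∃ N : ℕ, ∀ c : ℂ, c • (PowerSeries.X : PowerSeries ℂ) ^ N ∈ U := by
  by_contra hcon
  push Not at hcon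
  choose c hc using hcon
  have ht : Tendsto (fun N : ℕ => c N • (PowerSeries.X : PowerSeries ℂ) ^ N) atTop (𝓝 0) := by
    rw [PowerSeries.WithPiTopology.tendsto_iff_coeff_tendsto]
    intro d
    refine tendsto_const_nhds.congr' ?_
    filter_upwards [eventually_gt_atTop d] with N hN
    rw [map_zero, PowerSeries.coeff_smul, PowerSeries.coeff_X_pow, if_neg (by omega), smul_zero]
  obtain ⟨N, hN⟩ := (ht.eventually hU).exists
  exact hc N hN

/-- If `B : ℂ⟦z⟧ × X → X` is bilinear and continuous, then every continuous seminorm on `X` vanishes on the image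
of `B (z^N)` for some `N`. -/
theorem exists_kill {X : Type u} [AddCommGroup X] [Module ℂ X] [UniformSpace X] [IsFrechet X]
    (B : PowerSeries ℂ →ₗ[ℂ] X →ₗ[ℂ] X) (hB : Continuous fun p : PowerSeries ℂ × X => B p.1 p.2)
    (p : Seminorm ℂ X) (hp : Continuous p) :
    ∃ N : ℕ, ∀ x, p (B (PowerSeries.X ^ N) x) = 0 := by
  have hcsm : ContinuousSMul ℂ X := (PolynormableSpace.withSeminorms ℂ X).continuousSMul
  have h1 : ∀ᶠ q in 𝓝 ((0 : PowerSeries ℂ), (0 : X)), p (B q.1 q.2) < 1 := by
    have hc : Continuous fun q : PowerSeries ℂ × X => p (B q.1 q.2) := hp.comp hB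
    have h0 := hc.tendsto ((0 : PowerSeries ℂ), (0 : X))
    simp only [map_zero] at h0
    exact h0.eventually (gt_mem_nhds one_pos)
  rw [nhds_prod_eq] at h1
  obtain ⟨U, hU, V, hV, hUV⟩ := Filter.mem_prod_iff.1 h1
  obtain ⟨N, hN⟩ := exists_line_mem hU
  refine ⟨N, fun x => ?_⟩
  have h2 : Tendsto (fun c : ℂ => c • x) (𝓝 0) (𝓝 0) := by
    have : Tendsto (fun c : ℂ => c • x) (𝓝 0) (𝓝 ((0 : ℂ) • x)) :=
      (continuous_id.smul continuous_const).tendsto 0
    rwa [zero_smul] at this
  have h3 : ∀ᶠ c : ℂ in 𝓝[≠] 0, c • x ∈ V :=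
    (h2.eventually hV).filter_mono nhdsWithin_le_nhds
  obtain ⟨c, hcV, hc0⟩ := (h3.and self_mem_nhdsWithin).exists
  have hc0' : c ≠ 0 := hc0
  by_contra hne
  have hpos : 0 < p (B (PowerSeries.X ^ N) x) := lt_of_le_of_ne (apply_nonneg p _) (Ne.symm hne)
  have hcn : 0 < ‖c‖ := norm_pos_iff.2 hc0'
  -- choose the scalar
  set t : ℝ := 1 / (‖c‖ * p (B (PowerSeries.X ^ N) x)) with ht
  have htpos : 0 < t := by positivity
  have h4 : p (B ((t : ℂ) • PowerSeries.X ^ N) (c • x)) < 1 :=
    hUV (Set.mk_mem_prod (hN t) hcV)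
  have e : B ((t : ℂ) • PowerSeries.X ^ N) (c • x) = c • ((t : ℂ) • B (PowerSeries.X ^ N) x) := by
    rw [LinearMap.map_smul, LinearMap.map_smul, LinearMap.smul_apply]
  rw [e, map_smul_eq_mul, map_smul_eq_mul, Complex.norm_real,
    Real.norm_of_nonneg htpos.le] at h4
  have h5 : ‖c‖ * (t * p (B (PowerSeries.X ^ N) x)) = 1 := by
    rw [ht]; field_simp
  linarith

/-- The backward shift `f ↦ (f - f(0)) / z`. -/
noncomputable def D : PowerSeries ℂ →ₗ[ℂ] PowerSeries ℂ where
  toFun f := PowerSeries.mk fun n => PowerSeries.coeff (n + 1) f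
  map_add' f g := by ext n; simp
  map_smul' c f := by ext n; simp

theorem coeff_D (n : ℕ) (f : PowerSeries ℂ) :
    PowerSeries.coeff n (D f) = PowerSeries.coeff (n + 1) f := by
  simp [D]

theorem continuous_D : Continuous D := by
  rw [continuous_iff_continuousAt]
  intro f
  unfold ContinuousAt
  rw [PowerSeries.WithPiTopology.tendsto_iff_coeff_tendsto]
  intro d
  simp only [coeff_D]
  exact (PowerSeries.WithPiTopology.continuous_coeff ℂ (d + 1)).tendsto f

theorem eq_X_mul_D (f : PowerSeries ℂ) :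
    f = PowerSeries.C (PowerSeries.constantCoeff f) + PowerSeries.X * D f := by
  ext n
  cases n with
  | zero => simp
  | succ n => simp [PowerSeries.coeff_succ_X_mul, coeff_D]

theorem D_X_mul (f : PowerSeries ℂ) : D (PowerSeries.X * f) = f := by
  ext n
  rw [coeff_D, PowerSeries.coeff_succ_X_mul]

theorem D_X : D PowerSeries.X = 1 := by
  have := D_X_mul 1
  rwa [mul_one] at this

theorem D_one : D (1 : PowerSeries ℂ) = 0 := by
  ext n
  rw [coeff_D]
  simp [PowerSeries.coeff_one]

/-- twisted Leibniz rule for the backward shift -/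
theorem D_mul (f g : PowerSeries ℂ) :
    D (f * g) = f * D g + (PowerSeries.constantCoeff g) • D f := by
  have hX : Function.Injective fun h : PowerSeries ℂ => PowerSeries.X * h := by
    intro a b hab
    have := congrArg D hab
    simpa [D_X_mul] using this
  apply hX
  have h1 := eq_X_mul_D (f * g)
  have h2 := eq_X_mul_D f
  have h3 := eq_X_mul_D g
  have h4 : PowerSeries.X * D (f * g) =
      f * g - PowerSeries.C (PowerSeries.constantCoeff (f * g)) := by
    rw [eq_sub_iff_add_eq, add_comm]; exact h1.symm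
  have h5 : PowerSeries.X * D f = f - PowerSeries.C (PowerSeries.constantCoeff f) := by
    rw [eq_sub_iff_add_eq, add_comm]; exact h2.symm
  have h6 : PowerSeries.X * D g = g - PowerSeries.C (PowerSeries.constantCoeff g) := by
    rw [eq_sub_iff_add_eq, add_comm]; exact h3.symm
  show PowerSeries.X * D (f * g) = PowerSeries.X * (f * D g + (PowerSeries.constantCoeff g) • D f)
  rw [h4, mul_add, mul_left_comm, h6, mul_smul_comm, h5, PowerSeries.smul_eq_C_mul, map_mul, map_mul]
  ring

/-- The Fréchet algebra `ℂ⟦z⟧`. -/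
noncomputable def formalPowerSeries : FrechetAlgebra.{0} where
  carrier := PowerSeries ℂ
  mul := LinearMap.mul ℂ (PowerSeries ℂ)
  mul_assoc a b c := by simp [mul_assoc]
  continuous_mul := (continuous_fst.mul continuous_snd :
      Continuous fun p : PowerSeries ℂ × PowerSeries ℂ => p.1 * p.2)

/-- The Fréchet algebra `zℂ⟦z⟧`; the element `f` of the underlying space `ℂ⟦z⟧` stands for `z f`, so the product
of `f` and `g` is `z f g`. -/
noncomputable def formalMaximalIdeal : FrechetAlgebra.{0} where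
  carrier := PowerSeries ℂ
  mul := (LinearMap.mul ℂ (PowerSeries ℂ)).comp (LinearMap.mulLeft ℂ PowerSeries.X)
  mul_assoc a b c := by
    simp only [LinearMap.comp_apply, LinearMap.mulLeft_apply, LinearMap.mul_apply']
    ring
  continuous_mul := ((continuous_const.mul continuous_fst).mul continuous_snd :
      Continuous fun p : PowerSeries ℂ × PowerSeries ℂ => PowerSeries.X * p.1 * p.2)

end Pool.Agent.Y727.FI
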